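import Pool.Agent.Y391.CB.Rect

/-! CB3-E-CIY, part A: the sum over all `2 π p / N` as an integral over a horizontal line. -/

set_option autoImplicit false

namespace Pool.Agent.Y678.CB

open Filter Topology Metric Set MeasureTheory Pool.Agent.W709.VC Pool.Agent.W588.HT Pool.Agent.Y391.CB
open scoped Real Interval

/-- the sum of a derivative over a period -/
theorem sum_deriv2 {F : ℂ → ℂ} (hF : Differentiable ℂ F) {N : ℕ}
    (hN : 1 ≤ N) {h : ℝ} (hh : 0 < h) :
    ∑ p ∈ Finset.range N, deriv F (2 * π * p / N) =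
      Complex.I / (2 * π) * (N * (N * rect (fun u => F u * kN N u) (-(π / N)) (2 * π - π / N) (-h) h)) := by
  have hN' : (0 : ℝ) < N := by exact_mod_cast hN
  have hNC : (N : ℂ) ≠ 0 := by exact_mod_cast hN'.ne'
  have hpi := Real.pi_pos
  have hpiC : (π : ℂ) ≠ 0 := by exact_mod_cast hpi.ne'
  obtain ⟨s, hs⟩ : ∃ s : ℝ, s = 2 * π / N := ⟨_, rfl⟩
  have hs0 : 0 < s := by rw [hs]; positivity
  have hsC : (s : ℂ) = 2 * π / N := by rw [hs]; push_cast; ring
  have hsC0 : (s : ℂ) ≠ 0 := by exact_mod_cast hs0.ne'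
  obtain ⟨H, hH⟩ : ∃ H : ℝ, H = h / s := ⟨_, rfl⟩
  have hH0 : 0 < H := by rw [hH]; positivity
  have hsH : s * H = h := by rw [hH]; field_simp
  have hF' : Differentiable ℂ (deriv F) := by
    rw [← differentiableOn_univ]
    exact hF.differentiableOn.deriv isOpen_univ
  -- the sum over naturals
  have e1 : ∑ p ∈ Finset.range N, deriv F (2 * π * p / N) =
      ∑ d ∈ Finset.Ico 0 N, (fun w : ℂ => deriv F (s * w)) (d : ℂ) := by
    rw [Finset.range_eq_Ico]
    refine Finset.sum_congr rfl fun p _ => ?_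
    simp only
    congr 1
    rw [hsC]
    ring
  -- as a boundary integral
  have e2 := sum_rect (f := fun w : ℂ => deriv F (s * w)) isOpen_univ
    (by
      apply Differentiable.differentiableOn
      exact hF'.comp (by fun_prop)) (A := 0) (B := N) (Nat.zero_le _) hH0
    (fun x y _ _ _ => mem_univ _)
  rw [e1, e2]
  obtain ⟨g, hg⟩ : ∃ g : ℂ → ℂ, g = fun w => (s : ℂ)⁻¹ * F (s * w) := ⟨_, rfl⟩
  have hgd : ∀ w, HasDerivAt g (deriv F (s * w)) w := by
    intro w
    have h1 : HasDerivAt (fun w : ℂ => (s : ℂ) * w) (s : ℂ) w := by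
      simpa using (hasDerivAt_id w).const_mul (s : ℂ)
    have h2 := (HasDerivAt.comp w (hF _).hasDerivAt h1).const_mul (s : ℂ)⁻¹
    rw [hg]
    refine h2.congr_deriv ?_
    field_simp
  have hEE : ∀ w ∈ Bd (((0 : ℕ) : ℝ) - 1 / 2) ((N : ℝ) - 1 / 2) (-H) H, EE w ≠ 0 := by
    intro w hw
    apply EE_Bd (m := 0) (n := (N : ℤ)) hH0
    simpa using hw
  have e3 : rect (fun w => deriv F (s * w) * kk w + g w * (-(2 * π * Complex.I) *
      (ee w / EE w ^ 2))) (((0 : ℕ) : ℝ) - 1 / 2) ((N : ℝ) - 1 / 2) (-H) H = 0 := by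
    apply rect_of_deriv (f := fun w => g w * kk w)
    · intro w hw
      exact (hgd w).mul (kk_deriv (hEE w hw))
    · intro w hw
      apply ContinuousAt.add
      · apply ContinuousAt.mul
        · exact (hF'.comp (by fun_prop : Differentiable ℂ fun w : ℂ => (s : ℂ) * w)).continuous.continuousAt
        · exact kk_cont (hEE w hw)
      · apply ContinuousAt.mul (hgd w).continuousAt
        apply ContinuousAt.mul continuousAt_const
        exact (ee_deriv w).continuousAt.div (EE_diff.continuous.continuousAt.pow 2)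
          (pow_ne_zero 2 (hEE w hw))
  have hR1 : RI (fun w => deriv F (s * w) * kk w) (((0 : ℕ) : ℝ) - 1 / 2)
      ((N : ℝ) - 1 / 2) (-H) H := by
    apply RI_of_cont
    intro w hw
    apply ContinuousAt.mul
    · exact (hF'.comp (by fun_prop : Differentiable ℂ fun w : ℂ => (s : ℂ) * w)).continuous.continuousAt
    · exact kk_cont (hEE w hw)
  have hR2 : RI (fun w => g w * (-(2 * π * Complex.I) * (ee w / EE w ^ 2)))
      (((0 : ℕ) : ℝ) - 1 / 2) ((N : ℝ) - 1 / 2) (-H) H := by
    apply RI_of_cont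
    intro w hw
    apply ContinuousAt.mul (hgd w).continuousAt
    apply ContinuousAt.mul continuousAt_const
    exact (ee_deriv w).continuousAt.div (EE_diff.continuous.continuousAt.pow 2)
      (pow_ne_zero 2 (hEE w hw))
  rw [rect_add hR1 hR2] at e3
  -- scaling
  obtain ⟨φ, hφ⟩ : ∃ φ : ℂ → ℂ, φ = fun u => F u * kN N u := ⟨_, rfl⟩
  have e4 : rect (fun w => g w * (-(2 * π * Complex.I) * (ee w / EE w ^ 2)))
      (((0 : ℕ) : ℝ) - 1 / 2) ((N : ℝ) - 1 / 2) (-H) H =
      (-(2 * π * Complex.I) * (s : ℂ)⁻¹) * rect (fun w => φ (s * (w - ((0 : ℝ) : ℂ))))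
      (((0 : ℕ) : ℝ) - 1 / 2) ((N : ℝ) - 1 / 2) (-H) H := by
    rw [← rect_mul]
    congr 1
    funext w
    have h1 : Complex.exp (Complex.I * N * (s * (w - ((0 : ℝ) : ℂ)))) = ee w := by
      unfold ee
      congr 1
      rw [hsC]
      push_cast
      field_simp
      ring
    rw [hg, hφ]
    simp only [kN]
    rw [h1]
    have h3 : (1 - ee w) ^ 2 = EE w ^ 2 := by
      unfold EE
      ring
    rw [h3, Complex.ofReal_zero, sub_zero]
    ring
  rw [rect_aff φ hs0.ne' 0] at e4
  have c1 : s * ((((0 : ℕ) : ℝ) - 1 / 2) - 0) = -(π / N) := by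
    rw [hs]
    push_cast
    field_simp
    ring
  have c2 : s * (((N : ℝ) - 1 / 2) - 0) = 2 * π - π / N := by
    rw [hs]
    field_simp
    ring
  have c3 : s * -H = -h := by rw [mul_neg, hsH]
  rw [c1, c2, c3, hsH] at e4
  rw [e4] at e3
  have e5 : (s : ℂ)⁻¹ = N / (2 * π) := by
    rw [hsC, inv_div]
  rw [e5] at e3
  rw [hφ] at e3
  rw [eq_neg_of_add_eq_zero_left e3]
  field_simp

/-- the boundary integral of an odd periodic function -/
theorem rect_odd_per {φ : ℂ → ℂ} (h : ∀ z, φ (-z) = -φ z) (hp : ∀ z, φ (z + 2 * π) = φ z) (a b : ℝ) :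
    rect φ a (a + 2 * π) (-b) b = -2 * ∫ x in (-π)..π, φ (x + b * Complex.I) := by
  have hv : (∫ y in (-b)..b, φ ((a + 2 * π : ℝ) + y * Complex.I)) =
      ∫ y in (-b)..b, φ (a + y * Complex.I) := by
    apply intervalIntegral.integral_congr
    intro y _
    show φ ((a + 2 * π : ℝ) + y * Complex.I) = φ (a + y * Complex.I)
    rw [← hp (a + y * Complex.I)]
    congr 1
    push_cast
    ring
  have hper : ∀ e : ℝ, Function.Periodic (fun x : ℝ => φ (x + e * Complex.I)) (2 * π) := by
    intro e x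
    show φ ((x + 2 * π : ℝ) + e * Complex.I) = φ (x + e * Complex.I)
    rw [← hp (x + e * Complex.I)]
    congr 1
    push_cast
    ring
  have h1 : ∀ e : ℝ, (∫ x in a..(a + 2 * π), φ (x + e * Complex.I)) =
      ∫ x in (-π)..π, φ (x + e * Complex.I) := by
    intro e
    have := (hper e).intervalIntegral_add_eq a (-π)
    rw [this]
    congr 1
    ring
  have h2 : (∫ x in (-π)..π, φ (x + (-b : ℝ) * Complex.I)) =
      -∫ x in (-π)..π, φ (x + b * Complex.I) := by
    have h2 := intervalIntegral.integral_comp_neg (a := -π) (b := π)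
      (fun x : ℝ => φ (x + (-b : ℝ) * Complex.I))
    rw [neg_neg] at h2
    rw [← h2, ← intervalIntegral.integral_neg]
    apply intervalIntegral.integral_congr
    intro x _
    show φ (((-x : ℝ) : ℂ) + (-b : ℝ) * Complex.I) = -φ (x + b * Complex.I)
    rw [← h]
    congr 1
    push_cast
    ring
  unfold rect
  rw [h1, h1, h2, hv]
  ring

theorem kN_per (N : ℕ) (u : ℂ) : kN N (u + 2 * π) = kN N u := by
  unfold kN
  have h1 : Complex.exp (Complex.I * N * (u + 2 * π)) = Complex.exp (Complex.I * N * u) := by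
    have h2 : Complex.I * N * (u + 2 * π) = Complex.I * N * u + ((N : ℤ) : ℂ) * (2 * π * Complex.I) := by
      push_cast
      ring
    rw [h2, Complex.exp_add, Complex.exp_int_mul_two_pi_mul_I, mul_one]
  rw [h1]

/-- the sum over a period as an integral over a horizontal line -/
theorem sum_line {F : ℂ → ℂ} (hF : Differentiable ℂ F) (hodd : ∀ z, F (-z) = -F z)
    (hper : ∀ z, F (z + 2 * π) = F z) {N : ℕ} (hN : 1 ≤ N) {h : ℝ} (hh : 0 < h) :
    ∑ p ∈ Finset.range N, deriv F (2 * π * p / N) =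
      Complex.I / (2 * π) * (N * (N * (-2 * ∫ x in (-π)..π, F (x + h * Complex.I) * kN N (x + h * Complex.I)))) := by
  rw [sum_deriv2 hF hN hh]
  have h1 : 2 * π - π / N = -(π / N) + 2 * π := by ring
  rw [h1, rect_odd_per (φ := fun u => F u * kN N u) (fun z => by
    rw [hodd, kN_neg, neg_mul]) (fun z => by
    rw [hper, kN_per]) (-(π / N)) h]

end Pool.Agent.Y678.CB
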