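import Pool.Agent.Y472.E.Defs
import Pool.Agent.Y391.CB.Chi2
import Pool.Agent.Y678.CB.CiyA

/-! CB3-E-CIY: the sum over `χ = 2 π p / N` by the horizontal line through `i y₀ + z`. -/

set_option autoImplicit false

namespace Pool.Agent.Y678.CB

open Filter Topology Metric Set MeasureTheory Pool.Agent.W711.HT Pool.Agent.W588.HT Pool.Agent.Y391.CB
open scoped Real Interval

theorem gro_shift {I : ℕ → ℂ} {v y : ℝ} (h : Gro I v) :
    Gro (fun N : ℕ => Complex.exp (-(N * y : ℝ)) * I N) (v - y) := by
  intro ε hε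
  filter_upwards [h ε hε] with N h1
  have e0 : ‖Complex.exp (-(N * y : ℝ)) * I N‖ = Real.exp (-(N * y)) * ‖I N‖ := by
    rw [norm_mul, ← Complex.ofReal_neg, ← Complex.ofReal_exp, Complex.norm_real, Real.norm_eq_abs,
      abs_of_pos (Real.exp_pos _)]
  rw [e0]
  constructor
  · have e1 : Real.exp (N * (v - y - ε)) = Real.exp (-(N * y)) * Real.exp (N * (v - ε)) := by
      rw [← Real.exp_add]; congr 1; ring
    rw [e1]
    exact mul_le_mul_of_nonneg_left h1.1 (Real.exp_pos _).le
  · have e1 : Real.exp (N * (v - y + ε)) = Real.exp (-(N * y)) * Real.exp (N * (v + ε)) := by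
      rw [← Real.exp_add]; congr 1; ring
    rw [e1]
    exact mul_le_mul_of_nonneg_left h1.2 (Real.exp_pos _).le

/-- the far part of the line -/
theorem far_bound {X : ℂ → ℂ} {N : ℕ} {h v x : ℝ} (hh : 0 < h)
    (hN : Real.exp (-(N * h)) ≤ 1 / 2) (hX : ‖X (x + h * Complex.I)‖ ≤ Real.exp (N * v)) :
    ‖Complex.sin (x + h * Complex.I) * X (x + h * Complex.I) * kN N (x + h * Complex.I)‖ ≤
      4 * Real.exp h * Real.exp (N * (v - h)) := by
  have him : ((x : ℂ) + h * Complex.I).im = h := by simp
  have h1 : ‖Complex.sin (x + h * Complex.I)‖ ≤ Real.exp h := by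
    refine (Pool.Agent.W85.HT.norm_sin_le _).trans (Real.exp_le_exp.2 ?_)
    rw [him, abs_of_pos hh]
  have h2 : ‖kN N (x + h * Complex.I)‖ ≤ 4 * Real.exp (-(N * h)) := by
    unfold kN
    rw [norm_div, norm_pow, norm_e, him]
    have h3 : 1 / 2 ≤ ‖1 - Complex.exp (Complex.I * N * (x + h * Complex.I))‖ := by
      have h4 := norm_sub_norm_le (1 : ℂ) (Complex.exp (Complex.I * N * (x + h * Complex.I)))
      rw [norm_one, norm_e, him] at h4
      linarith
    rw [div_le_iff₀ (by positivity)]
    have h5 : 1 / 4 ≤ ‖1 - Complex.exp (Complex.I * N * (x + h * Complex.I))‖ ^ 2 := by nlinarith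
    have := Real.exp_pos (-(N * h))
    nlinarith
  rw [norm_mul, norm_mul]
  calc ‖Complex.sin (x + h * Complex.I)‖ * ‖X (x + h * Complex.I)‖ * ‖kN N (x + h * Complex.I)‖ ≤
      Real.exp h * Real.exp (N * v) * (4 * Real.exp (-(N * h))) := by
        gcongr
    _ = 4 * Real.exp h * Real.exp (N * (v - h)) := by
        have : Real.exp (N * (v - h)) = Real.exp (N * v) * Real.exp (-(N * h)) := by
          rw [← Real.exp_add]; congr 1; ring
        rw [this]
        ring

theorem ciy : Pool.Agent.Y472.S_CIY := by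
  intro y₀ R c κ X G z hR hR1 hRy hc hκ hX hXe hXp hG hG2 hMW hz hcr hfar
  have hopen : IsOpen (Rc R R) := Pool.Agent.W293.HT.isOpen_Rc _ _
  have hy0 : 0 < y₀ := hR.trans hRy
  obtain ⟨h, hh⟩ : ∃ h : ℝ, h = y₀ + z.im := ⟨_, rfl⟩
  have hzim := abs_lt.1 hz.2
  have hzre := abs_lt.1 hz.1
  have hh0 : 0 < h := by rw [hh]; linarith [hzim.1]
  -- the compact set
  obtain ⟨K, hK⟩ : ∃ K : Set ℂ, K = Set.Icc (-(3 * R / 4)) (3 * R / 4) ×ℂ Set.Icc (-(R / 2)) (R / 2) :=
    ⟨_, rfl⟩
  have hKc : IsCompact K := by rw [hK]; exact isCompact_Icc.reProdIm isCompact_Icc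
  have hKm : ∀ w : ℂ, w ∈ K ↔ |w.re| ≤ 3 * R / 4 ∧ |w.im| ≤ R / 2 := by
    intro w
    rw [hK, Complex.mem_reProdIm, Set.mem_Icc, Set.mem_Icc, abs_le, abs_le]
  have hKU : K ⊆ Rc R R := by
    intro w hw
    rw [hKm] at hw
    exact ⟨by linarith [hw.1], by linarith [hw.2]⟩
  have hXd : ∀ N, Differentiable ℂ (fun w => X N (w + y₀ * Complex.I)) := fun N =>
    (hX N).comp (by fun_prop)
  obtain ⟨g, c', hc1, hgd, hglim⟩ := Pool.Agent.W930.HTLog.main (fun N w => X N (w + y₀ * Complex.I)) G
    (Rc R R) K hopen (Pool.Agent.W293.HT.convex_Rc _ _)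
    (Eventually.of_forall fun N => (hXd N).differentiableOn) hG hMW hKc hKU
  -- the phases
  obtain ⟨Q, hQ⟩ : ∃ Q : (ℂ → ℂ) → ℂ → ℂ, Q = fun g w => Complex.I * w + g w := ⟨_, rfl⟩
  have hQd : ∀ g : ℂ → ℂ, DifferentiableOn ℂ g (Rc R R) → DifferentiableOn ℂ (Q g) (Rc R R) := by
    intro g hg
    rw [hQ]
    exact (by fun_prop : Differentiable ℂ fun w : ℂ => Complex.I * w).differentiableOn.add hg
  have hQder : ∀ w ∈ Rc R R, HasDerivAt (Q G) (Complex.I + deriv G w) w := by
    intro w hw
    rw [hQ]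
    have h1 := (hG.differentiableAt (hopen.mem_nhds hw)).hasDerivAt
    have h2 : HasDerivAt (fun w : ℂ => Complex.I * w) Complex.I w := by
      simpa using (hasDerivAt_id w).const_mul Complex.I
    exact h2.add h1
  have hQder2 : ∀ w ∈ Rc R R, HasDerivAt (fun w => Complex.I + deriv G w) (deriv (deriv G) w) w := by
    intro w hw
    exact (((hG.deriv hopen).differentiableAt (hopen.mem_nhds hw)).hasDerivAt).const_add _
  have hzR : z ∈ Rc R R := ⟨by linarith [hz.1], by linarith [hz.2]⟩
  have hQlim : TendstoUniformlyOn (fun N => Q (g N)) (Q G) atTop K := by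
    rw [Metric.tendstoUniformlyOn_iff] at hglim ⊢
    intro ε hε
    filter_upwards [hglim ε hε] with N hN w hw
    have := hN w hw
    rw [dist_eq_norm] at this ⊢
    have e : Q G w - Q (g N) w = G w - g N w := by
      rw [hQ]; ring
    rw [e]; exact this
  have hin : ∀ x : ℝ, |x| ≤ R / 2 → (x : ℂ) + z.im * Complex.I ∈ Rc R R := by
    intro x hx
    refine ⟨?_, ?_⟩
    · have : ((x : ℂ) + z.im * Complex.I).re = x := by simp
      rw [this]
      linarith
    · have : ((x : ℂ) + z.im * Complex.I).im = z.im := by simp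
      rw [this]
      exact hzR.2
  have hzri : (z.re : ℂ) + z.im * Complex.I = z := Complex.re_add_im z
  have hline : ∀ x : ℝ, |x| ≤ R / 2 → (Q G (x + z.im * Complex.I)).re ≤
      (Q G z).re - c / 2 * (x - z.re) ^ 2 := by
    intro x hx
    have h1 := Pool.Agent.W293.HT.quad_bound
      (f := fun x : ℝ => (Q G (x + z.im * Complex.I)).re)
      (f' := fun x : ℝ => (Complex.I + deriv G (x + z.im * Complex.I)).re)
      (f'' := fun x : ℝ => (deriv (deriv G) (x + z.im * Complex.I)).re) (r := R / 2) (c := c) (x0 := z.re)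
      (fun x hx => Pool.Agent.W293.HT.hasDerivAt_line (hQder _ (hin x hx)))
      (fun x hx => Pool.Agent.W293.HT.hasDerivAt_line (Q := fun w => Complex.I + deriv G w)
        (hQder2 _ (hin x hx)))
      (fun x hx => hG2 _ (hin x hx))
      (by linarith [hz.1]) (by
        show (Complex.I + deriv G (z.re + z.im * Complex.I)).re = 0
        rw [hzri, hcr, Complex.zero_re]) hx
    simp only [hzri] at h1
    exact h1
  -- the open set
  obtain ⟨U, hU⟩ : ∃ U : Set ℂ, U = {w : ℂ | |w.re| < 3 * R / 4 ∧ |w.im| < R / 2} := ⟨_, rfl⟩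
  have hUo : IsOpen U := by
    rw [hU]
    have o1 : IsOpen {w : ℂ | |w.re| < 3 * R / 4} := isOpen_lt (by fun_prop) continuous_const
    have o2 : IsOpen {w : ℂ | |w.im| < R / 2} := isOpen_lt (by fun_prop) continuous_const
    exact o1.inter o2
  have hUm : ∀ w ∈ U, |w.re| < 3 * R / 4 ∧ |w.im| < R / 2 := by
    intro w hw; rw [hU] at hw; exact hw
  have hUK : U ⊆ K := by
    intro w hw
    have := hUm w hw
    rw [hKm]
    exact ⟨this.1.le, this.2.le⟩
  have hshim : ∀ w ∈ U, y₀ - R / 2 ≤ (w + y₀ * Complex.I).im ∧ (w + y₀ * Complex.I).im ≤ y₀ + R / 2 := by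
    intro w hw
    have h1 := abs_lt.1 (hUm w hw).2
    have h2 : (w + y₀ * Complex.I).im = w.im + y₀ := by simp
    rw [h2]
    constructor <;> linarith [h1.1, h1.2]
  have hplim : TendstoUniformlyOn (fun N w => pN N (w + y₀ * Complex.I))
      (fun w => Complex.sin (w + y₀ * Complex.I)) atTop U := by
    have h1 := (pN_lim (h := y₀ - R / 2) (H := y₀ + R / 2) (by linarith)
      (U := {w : ℂ | y₀ - R / 2 ≤ w.im ∧ w.im ≤ y₀ + R / 2}) (fun w hw => hw)).comp
      (fun w : ℂ => w + y₀ * Complex.I)
    exact h1.mono hshim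
  have hderQ : deriv (Q G) z = 0 := by rw [(hQder z hzR).deriv, hcr]
  have hderQ2 : deriv (deriv (Q G)) z = deriv (deriv G) z := by
    have h1 : deriv (Q G) =ᶠ[𝓝 z] fun w => Complex.I + deriv G w := by
      filter_upwards [hopen.mem_nhds hzR] with w hw
      exact (hQder w hw).deriv
    rw [h1.deriv_eq, (hQder2 z hzR).deriv]
  have hPz : Complex.sin (z + y₀ * Complex.I) ≠ 0 := by
    intro h0
    rw [Complex.sin_eq_zero_iff] at h0
    obtain ⟨k, hk⟩ := h0
    have h1 := congrArg Complex.im hk
    have h2 : (z + y₀ * Complex.I).im = z.im + y₀ := by simp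
    have h3 : ((k : ℂ) * π).im = 0 := by simp
    rw [h2, h3] at h1
    linarith [hzim.1]
  have hδ0 : 0 < R / 4 - |z.re| := by linarith [hz.1]
  have hre := abs_le.1 (le_refl |z.re|)
  have hcore := core (fun N => Q (g N)) (fun N w => pN N (w + y₀ * Complex.I)) (Q G)
    (fun w => Complex.sin (w + y₀ * Complex.I)) U (-(R / 2)) (R / 2) z hUo
    (by
      filter_upwards [hgd] with N hN
      exact (hQd _ hN.1).mono (hUK.trans hKU))
    ((hQd _ hG).mono (hUK.trans hKU)) (hQlim.mono hUK)
    (by
      filter_upwards [eventually_gt_atTop 0] with N hN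
      exact (pN_diff hN (U := {w : ℂ | 0 < w.im}) (fun w hw => hw)).comp
        (by fun_prop : Differentiable ℂ fun w : ℂ => w + y₀ * Complex.I).differentiableOn
        (fun w hw => by
          have := (hshim w hw).1
          show 0 < (w + y₀ * Complex.I).im
          linarith))
    (by fun_prop)
    hplim (by linarith [hzre.1]) (by linarith [hzre.2])
    (by
      intro x hx1 hx2
      rw [hU]
      have e1 : ((x : ℂ) + z.im * Complex.I).re = x := by simp
      have e2 : ((x : ℂ) + z.im * Complex.I).im = z.im := by simp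
      refine ⟨?_, ?_⟩
      · rw [e1]
        have : |x| ≤ R / 2 := abs_le.2 ⟨hx1, hx2⟩
        linarith
      · rw [e2]
        linarith [hz.2])
    hderQ (by
      rw [hderQ2]
      have := hG2 z hzR
      linarith) hPz
    (by
      intro x hx1 hx2 hxz
      refine (hline x (abs_le.2 ⟨hx1, hx2⟩)).trans_lt ?_
      have h1 : 0 < (x - z.re) ^ 2 := by
        have := sub_ne_zero.2 hxz
        positivity
      nlinarith)
    hδ0 (α := fun N => -(R / 2)) (β := fun N => R / 2)
    (Eventually.of_forall fun N => ⟨le_rfl, by linarith [hre.1]⟩)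
    (Eventually.of_forall fun N => ⟨by linarith [hre.2], le_rfl⟩)
  have hQz : (Q G z).re = (G z).re - z.im := by
    rw [hQ]
    simp
    ring
  rw [hQz] at hcore
  -- the main part
  obtain ⟨F, hF⟩ : ∃ F : ℕ → ℂ → ℂ, F = fun N χ => Complex.sin χ * X N χ := ⟨_, rfl⟩
  have hFd : ∀ N, Differentiable ℂ (F N) := by
    intro N
    rw [hF]
    exact Complex.differentiable_sin.mul (hX N)
  have hFo : ∀ N w, F N (-w) = -F N w := by
    intro N w
    rw [hF]
    simp only
    rw [Complex.sin_neg, hXe, neg_mul]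
  have hFp : ∀ N w, F N (w + 2 * π) = F N w := by
    intro N w
    rw [hF]
    simp only
    rw [Complex.sin_add_two_pi, hXp]
  have hint : ∀ᶠ N : ℕ in atTop, ∀ w ∈ Rc R R, F N (w + y₀ * Complex.I) * kN N (w + y₀ * Complex.I) =
      c' N * (Complex.exp (-(N * y₀ : ℝ)) *
        (pN N (w + y₀ * Complex.I) * Complex.exp (N * Q (g N) w))) := by
    filter_upwards [hgd] with N hN w hw
    have h1 := hN.2 w hw
    rw [hF, hQ]
    simp only
    rw [h1]
    unfold kN pN
    have e1 : Complex.exp (N * (Complex.I * w + g N w)) =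
        Complex.exp (Complex.I * N * w) * Complex.exp (N * g N w) := by
      rw [← Complex.exp_add]
      congr 1
      ring
    have e2 : Complex.exp (Complex.I * N * (w + y₀ * Complex.I)) =
        Complex.exp (-(N * y₀ : ℝ)) * Complex.exp (Complex.I * N * w) := by
      rw [← Complex.exp_add]
      congr 1
      push_cast
      linear_combination (N * y₀ : ℂ) * Complex.I_mul_I
    rw [e1, div_eq_mul_inv, div_eq_mul_inv]
    generalize ((1 - Complex.exp (Complex.I * N * (w + y₀ * Complex.I))) ^ 2)⁻¹ = D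
    rw [e2]
    ring
  have hG1 : Gro (fun N : ℕ => Complex.exp (-(N * y₀ : ℝ)) * ∫ x in (-(R / 2))..(R / 2),
      pN N (x + z.im * Complex.I + y₀ * Complex.I) *
        Complex.exp (N * Q (g N) (x + z.im * Complex.I))) ((G z).re - z.im - y₀) := gro_shift hcore
  have hv : (G z).re - z.im - y₀ = (G z).re - h := by rw [hh]; ring
  rw [hv] at hG1
  have hxh : ∀ x : ℝ, (x : ℂ) + h * Complex.I = x + z.im * Complex.I + y₀ * Complex.I := by
    intro x
    rw [hh]
    push_cast
    ring
  have hG2' : Gro (fun N => ∫ x in (-(R / 2))..(R / 2), F N (x + h * Complex.I) *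
      kN N (x + h * Complex.I)) ((G z).re - h) := by
    refine gro_norm (c := 1) one_pos hG1 ?_
    filter_upwards [hint] with N h1
    have e1 : (∫ x in (-(R / 2))..(R / 2), F N (x + h * Complex.I) * kN N (x + h * Complex.I)) =
        c' N * (Complex.exp (-(N * y₀ : ℝ)) * ∫ x in (-(R / 2))..(R / 2),
          pN N (x + z.im * Complex.I + y₀ * Complex.I) *
            Complex.exp (N * Q (g N) (x + z.im * Complex.I))) := by
      rw [← intervalIntegral.integral_const_mul, ← intervalIntegral.integral_const_mul]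
      apply intervalIntegral.integral_congr
      intro x hx
      rw [Set.uIcc_of_le (by linarith)] at hx
      show F N (x + h * Complex.I) * kN N (x + h * Complex.I) = _
      rw [hxh, h1 _ (hin x (abs_le.2 hx))]
    rw [e1, norm_mul, hc1, one_mul]
  -- the far part
  have hfarN : ∀ᶠ N : ℕ in atTop, ∀ x : ℝ, R / 2 ≤ |x| → |x| ≤ π →
      ‖F N (x + h * Complex.I) * kN N (x + h * Complex.I)‖ ≤
        4 * Real.exp h * Real.exp (N * ((G z).re - h - κ)) := by
    have h2 : ∀ᶠ N : ℕ in atTop, Real.exp (-(N * h)) ≤ 1 / 2 := by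
      have h1 : Tendsto (fun N : ℕ => Real.exp (-(N * h))) atTop (𝓝 0) := by
        rw [Real.tendsto_exp_comp_nhds_zero]
        exact tendsto_neg_atTop_atBot.comp
          (Tendsto.atTop_mul_const hh0 tendsto_natCast_atTop_atTop)
      exact (h1.eventually_lt_const (show (0 : ℝ) < 1 / 2 by norm_num)).mono fun N hN => hN.le
    filter_upwards [hfar, h2] with N h3 h4 x hx1 hx2
    have h5 := h3 x hx1 hx2
    have e1 : (x : ℂ) + (y₀ + z.im) * Complex.I = x + h * Complex.I := by
      rw [hh]; push_cast; ring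
    rw [e1] at h5
    have h6 := far_bound (X := X N) (v := (G z).re - κ) hh0 h4 h5
    rw [hF]
    have e2 : (G z).re - h - κ = (G z).re - κ - h := by ring
    rw [e2]
    exact h6
  have hpi := Real.pi_pos
  have hpi3 := Real.pi_gt_three
  have hcont : ∀ᶠ N : ℕ in atTop, Continuous (fun x : ℝ => F N (x + h * Complex.I) * kN N (x + h * Complex.I)) := by
    filter_upwards [eventually_gt_atTop 0] with N hN
    apply Continuous.mul
    · exact (hFd N).continuous.comp (by fun_prop)
    · unfold kN
      apply Continuous.div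
      · fun_prop
      · fun_prop
      · intro x
        exact pow_ne_zero _ (e_ne hN (by simpa using hh0))
  have hN1 : ∀ a b : ℝ, (∀ x ∈ Set.uIoc a b, R / 2 ≤ |x| ∧ |x| ≤ π) → |b - a| ≤ π →
      Neg (fun N => ∫ x in a..b, F N (x + h * Complex.I) * kN N (x + h * Complex.I)) ((G z).re - h) := by
    intro a b hab hab2
    apply neg_of_bound (C := 4 * Real.exp h * π) hκ
    filter_upwards [hfarN] with N h1
    have h2 := intervalIntegral.norm_integral_le_of_norm_le_const (fun x hx => h1 x (hab x hx).1 (hab x hx).2)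
    refine h2.trans ?_
    have hN0 : (0 : ℝ) ≤ N := Nat.cast_nonneg _
    calc 4 * Real.exp h * Real.exp (N * ((G z).re - h - κ)) * |b - a| ≤
        4 * Real.exp h * Real.exp (N * ((G z).re - h - κ)) * π := by gcongr
      _ = 4 * Real.exp h * π * 1 * Real.exp (N * ((G z).re - h - κ)) := by ring
      _ ≤ 4 * Real.exp h * π * (N + 1) * Real.exp (N * ((G z).re - h - κ)) := by
          gcongr
          linarith
  have hG3 := (hG2'.add (hN1 (-π) (-(R / 2)) (by
      intro x hx
      rw [Set.uIoc_of_le (by linarith)] at hx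
      have : |x| = -x := abs_of_nonpos (by linarith [hx.2])
      rw [this]
      constructor <;> linarith [hx.1, hx.2]) (by
      rw [abs_of_pos (by linarith)]
      linarith))).add (hN1 (R / 2) π (by
      intro x hx
      rw [Set.uIoc_of_le (by linarith)] at hx
      have : |x| = x := abs_of_nonneg (by linarith [hx.1])
      rw [this]
      constructor <;> linarith [hx.1, hx.2]) (by
      rw [abs_of_pos (by linarith)]
      linarith))
  have hG4 : Gro (fun N => -2 * ∫ x in (-π)..π, F N (x + h * Complex.I) * kN N (x + h * Complex.I))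
      ((G z).re - h) := by
    refine gro_norm (c := 2) two_pos hG3 ?_
    filter_upwards [hcont] with N h1
    have e1 : (∫ x in (-π)..π, F N (x + h * Complex.I) * kN N (x + h * Complex.I)) =
        (∫ x in (-(R / 2))..(R / 2), F N (x + h * Complex.I) * kN N (x + h * Complex.I)) +
        (∫ x in (-π)..(-(R / 2)), F N (x + h * Complex.I) * kN N (x + h * Complex.I)) +
        ∫ x in (R / 2)..π, F N (x + h * Complex.I) * kN N (x + h * Complex.I) := by
      rw [← intervalIntegral.integral_add_adjacent_intervals (h1.intervalIntegrable _ (-(R / 2)))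
        (h1.intervalIntegrable _ π),
        ← intervalIntegral.integral_add_adjacent_intervals (a := -(R / 2)) (b := R / 2) (c := π)
        (h1.intervalIntegrable _ _) (h1.intervalIntegrable _ _)]
      ring
    rw [e1, norm_mul, norm_neg, Complex.norm_ofNat]
  have hG5 := (hG4.natMul).natMul
  have hG6 : Gro (fun N : ℕ => Complex.I / (2 * π) * (N * (N *
      (-2 * ∫ x in (-π)..π, F N (x + h * Complex.I) * kN N (x + h * Complex.I))))) ((G z).re - h) := by
    refine gro_norm (c := 1 / (2 * π)) (by positivity) hG5 (Eventually.of_forall fun N => ?_)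
    rw [norm_mul, norm_div, Complex.norm_I, norm_mul, Complex.norm_ofNat, Complex.norm_real,
      Real.norm_eq_abs, abs_of_pos Real.pi_pos]
  rw [← hh]
  refine hG6.log.congr' ?_
  filter_upwards [eventually_ge_atTop 1] with N hN
  have h1 := sum_line (hFd N) (hFo N) (hFp N) hN hh0
  rw [hF] at h1 ⊢
  rw [h1]

end Pool.Agent.Y678.CB
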