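import Pool.Agent.Y472.A.Defs

/-!
# Polynomials of a bidiagonal operator and divided differences
-/

set_option autoImplicit false

namespace Pool.Agent.Y678.CB

open Finset Polynomial Pool.Agent.Y472

/-- divided differences -/
noncomputable def dvd (u : ℕ → ℂ) (i j : ℕ) (P : ℂ[X]) : ℂ :=
  ∑ k ∈ Icc i j, Lagrange.nodalWeight (Icc i j) u k * P.eval (u k)

theorem dvd_self (u : ℕ → ℂ) (i : ℕ) (P : ℂ[X]) : dvd u i i P = P.eval (u i) := by
  unfold dvd
  rw [Icc_self, sum_singleton, Lagrange.nodalWeight]
  simp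

theorem dvd_add (u : ℕ → ℂ) (i j : ℕ) (P Q : ℂ[X]) : dvd u i j (P + Q) = dvd u i j P + dvd u i j Q := by
  unfold dvd
  rw [← sum_add_distrib]
  refine sum_congr rfl fun k _ => ?_
  rw [eval_add, mul_add]

theorem nw_erase {s : Finset ℕ} {u : ℕ → ℂ} {k a : ℕ} (hk : k ∈ s) (ha : a ∈ s) (hka : k ≠ a)
    (hu : Set.InjOn u s) :
    Lagrange.nodalWeight s u k * (u k - u a) = Lagrange.nodalWeight (s.erase a) u k := by
  unfold Lagrange.nodalWeight
  have h1 : a ∈ s.erase k := mem_erase.2 ⟨Ne.symm hka, ha⟩
  rw [← mul_prod_erase _ _ h1, erase_right_comm]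
  have h2 : u k - u a ≠ 0 := sub_ne_zero.2 fun h => hka (hu hk ha h)
  field_simp

theorem dvd_mul {u : ℕ → ℂ} {i j a : ℕ} (ha : a ∈ Icc i j) (hu : Set.InjOn u (Icc i j : Finset ℕ))
    (P : ℂ[X]) : dvd u i j (X * P) = u a * dvd u i j P +
      ∑ k ∈ (Icc i j).erase a, Lagrange.nodalWeight ((Icc i j).erase a) u k * P.eval (u k) := by
  unfold dvd
  have h1 : ∑ k ∈ (Icc i j).erase a, Lagrange.nodalWeight ((Icc i j).erase a) u k * P.eval (u k) =
      ∑ k ∈ Icc i j, Lagrange.nodalWeight (Icc i j) u k * (u k - u a) * P.eval (u k) := by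
    rw [← add_sum_erase _ _ ha, sub_self, mul_zero, zero_mul, zero_add]
    refine sum_congr rfl fun k hk => ?_
    rw [nw_erase (mem_of_mem_erase hk) ha (ne_of_mem_erase hk) hu]
  rw [h1, mul_sum, ← sum_add_distrib]
  refine sum_congr rfl fun k _ => ?_
  rw [eval_mul, eval_X]
  ring

theorem dvd_mul_right {u : ℕ → ℂ} {i j : ℕ} (hij : i ≤ j)
    (hu : Set.InjOn u (Icc i (j + 1) : Finset ℕ)) (P : ℂ[X]) :
    dvd u i (j + 1) (X * P) = u (j + 1) * dvd u i (j + 1) P + dvd u i j P := by
  have h1 : (Icc i (j + 1)).erase (j + 1) = Icc i j := by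
    ext x
    rw [mem_erase, mem_Icc, mem_Icc]
    omega
  rw [dvd_mul (a := j + 1) (mem_Icc.2 ⟨by omega, le_rfl⟩) hu, h1]
  rfl

theorem dvd_mul_left {u : ℕ → ℂ} {i j : ℕ} (hij : i < j)
    (hu : Set.InjOn u (Icc i j : Finset ℕ)) (P : ℂ[X]) :
    dvd u i j (X * P) = u i * dvd u i j P + dvd u (i + 1) j P := by
  have h1 : (Icc i j).erase i = Icc (i + 1) j := by
    ext x
    rw [mem_erase, mem_Icc, mem_Icc]
    omega
  rw [dvd_mul (a := i) (mem_Icc.2 ⟨le_rfl, hij.le⟩) hu, h1]
  rfl

theorem injOn_sub {u : ℕ → ℂ} {N i j : ℕ} (hu : Set.InjOn u (Set.Iio N)) (hj : j < N) :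
    Set.InjOn u (Icc i j : Finset ℕ) := by
  refine hu.mono fun x hx => ?_
  have := (mem_Icc.1 (mem_coe.1 hx)).2
  exact lt_of_le_of_lt this hj

theorem dvd_C {u : ℕ → ℂ} {N : ℕ} (hu : Set.InjOn u (Set.Iio N)) (a : ℂ) :
    ∀ d i : ℕ, i + d + 1 < N → dvd u i (i + d + 1) (C a) = 0 := by
  intro d
  induction d with
  | zero =>
    intro i hi
    have h1 := dvd_mul_right (u := u) (i := i) (j := i) le_rfl (injOn_sub hu (by omega)) (C a)
    have h2 := dvd_mul_left (u := u) (i := i) (j := i + 1) (by omega)
      (injOn_sub hu (by omega)) (C a)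
    rw [dvd_self, eval_C] at h1 h2
    have h3 : u i ≠ u (i + 1) := by
      intro h
      have := hu (show i ∈ Set.Iio N from (by omega : i < N))
        (show i + 1 ∈ Set.Iio N from (by omega : i + 1 < N)) h
      omega
    have h4 : (u i - u (i + 1)) * dvd u i (i + 0 + 1) (C a) = 0 := by
      simp only [add_zero]
      linear_combination h1 - h2
    exact (mul_eq_zero.1 h4).resolve_left (sub_ne_zero.2 h3)
  | succ d ih =>
    intro i hi
    have h1 := dvd_mul_right (u := u) (i := i) (j := i + (d + 1)) (by omega)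
      (injOn_sub hu (by omega)) (C a)
    have h2 := dvd_mul_left (u := u) (i := i) (j := i + (d + 1) + 1) (by omega)
      (injOn_sub hu (by omega)) (C a)
    have e1 : dvd u i (i + (d + 1)) (C a) = 0 := ih i (by omega)
    have e2 : dvd u (i + 1) (i + (d + 1) + 1) (C a) = 0 := by
      have := ih (i + 1) (by omega)
      have e : i + 1 + d + 1 = i + (d + 1) + 1 := by omega
      rwa [e] at this
    rw [e1] at h1
    rw [e2] at h2
    have h3 : u i ≠ u (i + (d + 1) + 1) := by
      intro h
      have := hu (show i ∈ Set.Iio N from (by omega : i < N))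
        (show i + (d + 1) + 1 ∈ Set.Iio N from (by omega : i + (d + 1) + 1 < N)) h
      omega
    have h4 : (u i - u (i + (d + 1) + 1)) * dvd u i (i + (d + 1) + 1) (C a) = 0 := by
      linear_combination h1 - h2
    exact (mul_eq_zero.1 h4).resolve_left (sub_ne_zero.2 h3)

theorem dvd_C' {u : ℕ → ℂ} {N : ℕ} (hu : Set.InjOn u (Set.Iio N)) (a : ℂ) {i j : ℕ} (hij : i < j)
    (hj : j < N) : dvd u i j (C a) = 0 := by
  obtain ⟨d, rfl⟩ := Nat.exists_eq_add_of_lt hij
  exact dvd_C hu a d i hj

/-- induction on polynomials -/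
theorem poly_ind {Q : ℂ[X] → Prop} (hC : ∀ a, Q (C a)) (hadd : ∀ p q, Q p → Q q → Q (p + q))
    (hX : ∀ p, Q p → Q (X * p)) (P : ℂ[X]) : Q P := by
  induction P using Polynomial.induction_on with
  | C a => exact hC a
  | add p q hp hq => exact hadd p q hp hq
  | monomial n a h =>
    have : C a * X ^ (n + 1) = X * (C a * X ^ n) := by ring
    rw [this]
    exact hX _ h

theorem bid : S_BID := by
  intro V _ _ A u f φ N P hu
  constructor
  · intro hA hN
    have key : ∀ P : ℂ[X], ∀ i < N, Polynomial.aeval A P (f i) =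
        ∑ j ∈ Ico i N, dvd u i j P • f j := by
      refine poly_ind ?_ ?_ ?_
      · intro a i hi
        rw [aeval_C, Module.algebraMap_end_apply, sum_eq_sum_Ico_succ_bot hi, dvd_self, eval_C,
          sum_eq_zero, add_zero]
        intro j hj
        rw [mem_Ico] at hj
        rw [dvd_C' hu a (by omega) hj.2, zero_smul]
      · intro p q hp hq i hi
        rw [map_add, LinearMap.add_apply, hp i hi, hq i hi, ← sum_add_distrib]
        refine sum_congr rfl fun j _ => ?_
        rw [dvd_add, add_smul]
      · intro p hp i hi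
        have h1 : Polynomial.aeval A (X * p) (f i) = Polynomial.aeval A p (A (f i)) := by
          rw [mul_comm, map_mul, aeval_X, Module.End.mul_apply]
        rw [h1, hA i hi, map_add, map_smul, hp i hi]
        have h2 : Polynomial.aeval A p (f (i + 1)) =
            ∑ j ∈ Ico (i + 1) N, dvd u (i + 1) j p • f j := by
          by_cases hi1 : i + 1 < N
          · exact hp (i + 1) hi1
          · have : i + 1 = N := by omega
            rw [this, hN, map_zero, Ico_self, sum_empty]
        rw [h2, sum_eq_sum_Ico_succ_bot hi, sum_eq_sum_Ico_succ_bot hi, dvd_self, dvd_self,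
          eval_mul, eval_X, smul_add, smul_smul, add_assoc, smul_sum, ← sum_add_distrib]
        congr 1
        refine sum_congr rfl fun j hj => ?_
        rw [mem_Ico] at hj
        rw [dvd_mul_left (by omega) (injOn_sub hu hj.2), add_smul, smul_smul]
    exact key P
  · intro i₀ hA hφ
    have key : ∀ P : ℂ[X], ∀ j < N, i₀ ≤ j → Polynomial.aeval A P (f j) =
        ∑ i ∈ Icc i₀ j, ((∏ t ∈ Ioc i j, φ t) * dvd u i j P) • f i := by
      refine poly_ind ?_ ?_ ?_
      · intro a j hj hij
        have hm : j ∈ Icc i₀ j := mem_Icc.2 ⟨hij, le_rfl⟩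
        rw [aeval_C, Module.algebraMap_end_apply, ← add_sum_erase _ _ hm, dvd_self, eval_C,
          Ioc_self, prod_empty, one_mul, sum_eq_zero, add_zero]
        intro i hi
        rw [mem_erase, mem_Icc] at hi
        rw [dvd_C' hu a (by omega) hj, mul_zero, zero_smul]
      · intro p q hp hq j hj hij
        rw [map_add, LinearMap.add_apply, hp j hj hij, hq j hj hij, ← sum_add_distrib]
        refine sum_congr rfl fun i _ => ?_
        rw [dvd_add, mul_add, add_smul]
      · intro p hp j hj hij
        have h1 : Polynomial.aeval A (X * p) (f j) = Polynomial.aeval A p (A (f j)) := by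
          rw [mul_comm, map_mul, aeval_X, Module.End.mul_apply]
        rw [h1, hA j hj hij, map_add, map_smul, map_smul, hp j hj hij]
        rcases Nat.eq_or_lt_of_le hij with h2 | h2
        · subst h2
          rw [hφ, zero_smul, add_zero, Icc_self, sum_singleton, sum_singleton, dvd_self, dvd_self,
            eval_mul, eval_X, Ioc_self, prod_empty, one_mul, one_mul, smul_smul]
        · obtain ⟨j', rfl⟩ : ∃ j', j = j' + 1 := ⟨j - 1, by omega⟩
          rw [Nat.add_sub_cancel, hp j' (by omega) (by omega)]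
          have h3 : Icc i₀ (j' + 1) = insert (j' + 1) (Icc i₀ j') := by
            ext x
            rw [mem_insert, mem_Icc, mem_Icc]
            omega
          have h4 : j' + 1 ∉ Icc i₀ j' := by
            rw [mem_Icc]
            omega
          rw [h3, sum_insert h4, sum_insert h4, dvd_self, dvd_self, eval_mul, eval_X, Ioc_self,
            prod_empty, one_mul, one_mul, smul_add, smul_smul, add_assoc, smul_sum, smul_sum,
            ← sum_add_distrib]
          congr 1
          refine sum_congr rfl fun i hi => ?_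
          rw [mem_Icc] at hi
          have h5 : ∏ t ∈ Ioc i (j' + 1), φ t = (∏ t ∈ Ioc i j', φ t) * φ (j' + 1) := by
            have : Ioc i (j' + 1) = insert (j' + 1) (Ioc i j') := by
              ext x
              rw [mem_insert, mem_Ioc, mem_Ioc]
              omega
            rw [this, prod_insert (by rw [mem_Ioc]; omega), mul_comm]
          rw [dvd_mul_right hi.2 (injOn_sub hu hj), smul_smul, smul_smul, ← add_smul, h5]
          congr 1
          ring
    exact key P

end Pool.Agent.Y678.CB
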