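import Pool.Agent.Y472.A.Defs

/-!
# A `q`-Vandermonde sum and a very well poised sum
-/

set_option autoImplicit false

namespace Pool.Agent.Y678.CB

open Finset
open Pool.Agent.Y472 (cb vT S_QV S_VWP)

/-- the terms of the `q`-Vandermonde sum -/
noncomputable def tm (v β γ : ℂ) (n k : ℕ) : ℂ :=
  (-(β / γ) * v ^ ((n : ℤ) - 1)) ^ k *
    ∏ t ∈ range k, (cb (v ^ (n - t)) * cb (β * v ^ (-1 - (t : ℤ))) /
      (cb (v ^ (t + 1)) * cb (γ * v ^ (-1 - (t : ℤ)))))

/-- the right side -/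
noncomputable def rm (v β γ : ℂ) (n : ℕ) : ℂ :=
  (β / v) ^ n * ∏ t ∈ range n, (cb (γ / β * v ^ (-(t : ℤ))) / cb (γ * v ^ (-1 - (t : ℤ))))

lemma cb_one : cb 1 = 0 := by simp [cb]

lemma tm_zero (v β γ : ℂ) (n : ℕ) : tm v β γ n 0 = 1 := by simp [tm]

lemma tm_last (v β γ : ℂ) (n : ℕ) : tm v β γ n (n + 1) = 0 := by
  unfold tm
  rw [prod_range_succ]
  simp [cb_one]

lemma prod_shift (v β : ℂ) (hv : v ≠ 0) (k : ℕ) :
    ∏ t ∈ range (k + 1), cb (β * v ^ (-1 - (t : ℤ))) =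
      cb (β / v) * ∏ t ∈ range k, cb (β / v * v ^ (-1 - (t : ℤ))) := by
  rw [prod_range_succ', mul_comm]
  congr 1
  · congr 1
    simp [div_eq_mul_inv]
  · refine prod_congr rfl fun t _ => ?_
    congr 1
    rw [div_eq_mul_inv, mul_assoc, ← zpow_neg_one, ← zpow_add₀ hv]
    congr 2
    push_cast
    ring

lemma pascal (v : ℂ) (hv : v ≠ 0) (n k : ℕ) (hk : k ≤ n) :
    v ^ (k + 1) * cb (v ^ (n + 1)) = cb (v ^ (n - k)) + v ^ (n + 1) * cb (v ^ (k + 1)) := by
  obtain ⟨m, rfl⟩ := Nat.exists_eq_add_of_le hk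
  have h1 : v ^ k ≠ 0 := pow_ne_zero _ hv
  have h2 : v ^ m ≠ 0 := pow_ne_zero _ hv
  simp only [cb, Nat.add_sub_cancel_left]
  rw [pow_succ, pow_succ, pow_add]
  field_simp
  ring

lemma tm_succ (v β γ : ℂ) (n k : ℕ) (hv : v ≠ 0) (hγ : γ ≠ 0) (hk : k ≤ n)
    (h1 : ∀ k < n + 1, cb (v ^ (k + 1)) ≠ 0) (h2 : ∀ k < n + 1, cb (γ * v ^ (-1 - (k : ℤ))) ≠ 0) :
    tm v β γ (n + 1) (k + 1) = tm v β γ n (k + 1) +
      (-(β / γ) * v ^ (2 * n) * cb (β / v) / cb (γ / v)) * tm v (β / v) (γ / v) n k := by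
  have hA : ∏ t ∈ range (k + 1), cb (v ^ (n + 1 - t)) =
      cb (v ^ (n + 1)) * ∏ t ∈ range k, cb (v ^ (n - t)) := by
    rw [prod_range_succ', mul_comm]
    congr 1
    refine prod_congr rfl fun t _ => ?_
    congr 2
    omega
  have hQ : ∏ t ∈ range (k + 1), cb (v ^ (t + 1)) ≠ 0 := by
    rw [prod_ne_zero_iff]
    intro t ht
    exact h1 t (by have := mem_range.1 ht; omega)
  have hG : ∏ t ∈ range (k + 1), cb (γ * v ^ (-1 - (t : ℤ))) ≠ 0 := by
    rw [prod_ne_zero_iff]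
    intro t ht
    exact h2 t (by have := mem_range.1 ht; omega)
  rw [prod_shift v γ hv] at hG
  have hg0 : cb (γ / v) ≠ 0 := left_ne_zero_of_mul hG
  have hg1 := right_ne_zero_of_mul hG
  rw [prod_range_succ] at hQ
  have hq0 := left_ne_zero_of_mul hQ
  have hq1 := right_ne_zero_of_mul hQ
  have hbg : β / v / (γ / v) = β / γ := by field_simp
  have hzn : v ^ (((n + 1 : ℕ) : ℤ) - 1) = v ^ n := by
    push_cast
    rw [add_sub_cancel_right, zpow_natCast]
  have hzn' : v ^ ((n : ℤ) - 1) = v ^ n / v := by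
    rw [zpow_sub₀ hv, zpow_natCast, zpow_one]
  unfold tm
  simp only [prod_div_distrib, prod_mul_distrib]
  rw [hA, prod_shift v γ hv, prod_shift v β hv, prod_range_succ (fun t => cb (v ^ (t + 1))),
    prod_range_succ (fun t => cb (v ^ (n - t))), hbg, hzn, hzn']
  have hp := pascal v hv n k hk
  generalize (∏ t ∈ range k, cb (v ^ (n - t))) = A at *
  generalize (∏ t ∈ range k, cb (v ^ (t + 1))) = Q at *
  generalize (∏ t ∈ range k, cb (β / v * v ^ (-1 - (t : ℤ)))) = B at *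
  generalize (∏ t ∈ range k, cb (γ / v * v ^ (-1 - (t : ℤ)))) = G at *
  generalize cb (γ / v) = g at *
  generalize cb (β / v) = b at *
  generalize hx : cb (v ^ (k + 1)) = x at *
  generalize hy : cb (v ^ (n + 1)) = y at *
  generalize hz : cb (v ^ (n - k)) = z at *
  have e1 : z = v ^ (k + 1) * y - v ^ (n + 1) * x := by rw [hp]; ring
  rw [e1]
  generalize β / γ = s at *
  rw [mul_pow, mul_pow, mul_pow, div_pow, div_pow, show v ^ (2 * n) = v ^ n * v ^ n by
    rw [← pow_add]; congr 1; omega]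
  generalize hu : v ^ n = u at *
  rw [show v ^ (n + 1) = u * v by rw [pow_succ, hu]]
  have hvk : v ^ k ≠ 0 := pow_ne_zero _ hv
  field_simp
  ring

lemma rm_succ (v β γ : ℂ) (n : ℕ) (hv : v ≠ 0) (hβ : β ≠ 0) (hγ : γ ≠ 0)
    (h2 : ∀ k < n + 1, cb (γ * v ^ (-1 - (k : ℤ))) ≠ 0) :
    rm v β γ (n + 1) = rm v β γ n +
      (-(β / γ) * v ^ (2 * n) * cb (β / v) / cb (γ / v)) * rm v (β / v) (γ / v) n := by
  have hG : ∏ t ∈ range (n + 1), cb (γ * v ^ (-1 - (t : ℤ))) ≠ 0 := by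
    rw [prod_ne_zero_iff]
    intro t ht
    exact h2 t (by have := mem_range.1 ht; omega)
  have e := prod_shift v γ hv n
  have hG' := hG
  rw [e] at hG
  have hg0 : cb (γ / v) ≠ 0 := left_ne_zero_of_mul hG
  have hg1 := right_ne_zero_of_mul hG
  rw [prod_range_succ] at hG' e
  have hG0 := left_ne_zero_of_mul hG'
  have hG1 := right_ne_zero_of_mul hG'
  have hbg : γ / v / (β / v) = γ / β := by field_simp
  unfold rm
  simp only [prod_div_distrib]
  rw [prod_range_succ, prod_range_succ, hbg]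
  have key : β / v * cb (γ / β * v ^ (-(n : ℤ))) = cb (γ * v ^ (-1 - (n : ℤ))) -
      β / γ * v ^ n * cb (β / v) := by
    have h3 : v ^ n ≠ 0 := pow_ne_zero _ hv
    simp only [cb]
    rw [zpow_neg, zpow_natCast, zpow_sub₀ hv, zpow_neg_one, zpow_natCast]
    field_simp
    ring
  generalize (∏ t ∈ range n, cb (γ * v ^ (-1 - (t : ℤ)))) = G at *
  generalize (∏ t ∈ range n, cb (γ / v * v ^ (-1 - (t : ℤ)))) = G' at *
  generalize (∏ t ∈ range n, cb (γ / β * v ^ (-(t : ℤ)))) = P at *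
  generalize hx : cb (γ / β * v ^ (-(n : ℤ))) = x at *
  generalize hy : cb (γ * v ^ (-1 - (n : ℤ))) = y at *
  generalize cb (γ / v) = g at *
  generalize cb (β / v) = b at *
  have e1 : y = β / v * x + β / γ * v ^ n * b := by rw [key]; ring
  have e2 : g = G * y / G' := by rw [e]; field_simp
  have h3 : v ^ n ≠ 0 := pow_ne_zero _ hv
  rw [e2]
  have e3 : (β / v / v) ^ n = (β / v) ^ n / v ^ n := by rw [div_pow (β / v)]
  rw [e3, show v ^ (2 * n) = v ^ n * v ^ n by rw [← pow_add]; congr 1; omega, pow_succ]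
  have : P * x / (G * y) * ((β / v) ^ n * (β / v)) * (G * y) = (P / G +
    -(β / γ) * (v ^ n * v ^ n) * b / (G * y / G') * (1 / v ^ n * (P / G'))) * (β / v) ^ n * (G * y) := by
    have : P * x / (G * y) * ((β / v) ^ n * (β / v)) * (G * y) = P * (β / v) ^ n * (β / v * x) := by
      field_simp
    rw [this, key]
    field_simp
    ring
  have hGy : G * y ≠ 0 := mul_ne_zero hG0 hG1
  have := mul_right_cancel₀ hGy this
  calc _ = P * x / (G * y) * ((β / v) ^ n * (β / v)) := by ring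
    _ = _ := this
    _ = _ := by ring

theorem qv : S_QV := by
  intro v β γ n hv
  induction n generalizing β γ with
  | zero => intros; simp
  | succ n ih =>
    intro hβ hγ h1 h2
    have hβ' : β / v ≠ 0 := div_ne_zero hβ hv
    have hγ' : γ / v ≠ 0 := div_ne_zero hγ hv
    have a1 := ih β γ hβ hγ (fun k hk => h1 k (by omega)) (fun k hk => h2 k (by omega))
    have a2 := ih (β / v) (γ / v) hβ' hγ' (fun k hk => h1 k (by omega)) (fun k hk => by
      have := h2 (k + 1) (by omega)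
      rw [div_eq_mul_inv, mul_assoc, ← zpow_neg_one, ← zpow_add₀ hv]
      convert this using 4
      push_cast
      ring)
    change ∑ k ∈ range (n + 1), tm v β γ n k = rm v β γ n at a1
    change ∑ k ∈ range (n + 1), tm v (β / v) (γ / v) n k = rm v (β / v) (γ / v) n at a2
    change ∑ k ∈ range (n + 1 + 1), tm v β γ (n + 1) k = rm v β γ (n + 1)
    rw [sum_range_succ', tm_zero, rm_succ v β γ n hv hβ hγ h2, ← a1, ← a2, mul_sum]
    have : ∑ k ∈ range (n + 1), tm v β γ (n + 1) (k + 1) = ∑ k ∈ range (n + 1),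
        (tm v β γ n (k + 1) +
      (-(β / γ) * v ^ (2 * n) * cb (β / v) / cb (γ / v)) * tm v (β / v) (γ / v) n k) :=
      sum_congr rfl fun k hk => tm_succ v β γ n k hv hγ (by have := mem_range.1 hk; omega) h1 h2
    rw [this, sum_add_distrib]
    have e : ∑ k ∈ range (n + 1), tm v β γ n (k + 1) + 1 = ∑ k ∈ range (n + 1), tm v β γ n k := by
      rw [← tm_zero v β γ n, ← sum_range_succ', sum_range_succ, tm_last, add_zero]
    rw [← e]
    ring

end Pool.Agent.Y678.CB
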