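import Pool.Agent.Y472.A.Defs

/-!
# A very well poised sum
-/

set_option autoImplicit false

namespace Pool.Agent.Y678.CB

open Finset
open Pool.Agent.Y472 (cb vT S_QV S_VWP)

/-- `{v} {v^2} ⋯ {v^n}` -/
noncomputable def qn (v : ℂ) (n : ℕ) : ℂ := ∏ t ∈ range n, cb (v ^ (t + 1))
/-- one factor -/
noncomputable def Pf (v x : ℂ) (n : ℕ) : ℂ := cb (x * v ^ (-1 - (n : ℤ)))
/-- a Pochhammer symbol -/
noncomputable def Ph (v x : ℂ) (n : ℕ) : ℂ := ∏ t ∈ range n, Pf v x t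

lemma qn_succ (v : ℂ) (n : ℕ) : qn v (n + 1) = qn v n * cb (v ^ (n + 1)) := prod_range_succ _ _
lemma Ph_succ (v x : ℂ) (n : ℕ) : Ph v x (n + 1) = Ph v x n * Pf v x n := prod_range_succ _ _

/-- the closed form of the terms -/
noncomputable def TT (v a b : ℂ) (k r : ℕ) : ℂ :=
  v ^ (-(r : ℤ) ^ 2) * b ^ r * (v / a) ^ (k - r) *
    (Ph v a r * Ph v (a * b) r * Pf v (a * b) (2 * r)) * (qn v k * Ph v b k) /
    (qn v r * qn v (k - r) * Ph v b r * Ph v (a * b) (r + k + 1))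

lemma Ph_ne (v x : ℂ) (h : ∀ i : ℤ, cb (x * v ^ i) ≠ 0) (n : ℕ) : Ph v x n ≠ 0 := by
  rw [Ph, prod_ne_zero_iff]
  intro t _
  exact h _

lemma qn_ne (v : ℂ) (k : ℕ) (h : ∀ i : ℕ, i < k → cb (v ^ (i + 1)) ≠ 0) (n : ℕ) (hn : n ≤ k) :
    qn v n ≠ 0 := by
  rw [qn, prod_ne_zero_iff]
  intro t ht
  exact h t (by have := mem_range.1 ht; omega)

lemma vT_eq (v a b : ℂ) (k r : ℕ) (hr : r ≤ k)
    (h1 : ∀ i : ℕ, i < k → cb (v ^ (i + 1)) ≠ 0) (h2 : ∀ i : ℤ, cb (a * b * v ^ i) ≠ 0)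
    (h3 : ∀ i : ℤ, cb (b * v ^ i) ≠ 0) : vT v a b k r = TT v a b k r := by
  obtain ⟨m, rfl⟩ := Nat.exists_eq_add_of_le hr
  have e0 : r + m - r = m := by omega
  have p1 : ∏ t ∈ range r, cb (a * b * v ^ (-1 - 2 * (r : ℤ) + (t + 1))) =
      Ph v (a * b) (2 * r) / Ph v (a * b) r := by
    rw [eq_div_iff (Ph_ne v _ h2 r), ← prod_range_reflect, mul_comm, two_mul r]
    simp only [Ph]
    rw [prod_range_add]
    congr 1
    refine prod_congr rfl fun t ht => ?_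
    have := mem_range.1 ht
    rw [Pf]
    congr 3
    have : ((r - 1 - t : ℕ) : ℤ) = r - 1 - t := by omega
    rw [this]
    push_cast
    ring
  have p2 : ∏ t ∈ range m, cb (v ^ (r + (t + 1))) = qn v (r + m) / qn v r := by
    rw [eq_div_iff (qn_ne v _ h1 r hr), mul_comm]
    simp only [qn]
    rw [prod_range_add]
    rfl
  have p3 : ∏ t ∈ range m, cb (b * v ^ (-(r : ℤ) - (t + 1))) = Ph v b (r + m) / Ph v b r := by
    rw [eq_div_iff (Ph_ne v _ h3 r), mul_comm]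
    simp only [Ph]
    rw [prod_range_add]
    congr 1
    refine prod_congr rfl fun t ht => ?_
    rw [Pf]
    congr 3
    push_cast
    ring
  have p4 : ∏ t ∈ range m, cb (a * b * v ^ (-1 - 2 * (r : ℤ) - (t + 1))) =
      Ph v (a * b) (r + (r + m) + 1) / Ph v (a * b) (2 * r + 1) := by
    rw [eq_div_iff (Ph_ne v _ h2 _), mul_comm, show r + (r + m) + 1 = 2 * r + 1 + m by ring]
    simp only [Ph]
    rw [prod_range_add _ (2 * r + 1) m]
    congr 1
    refine prod_congr rfl fun t ht => ?_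
    rw [Pf]
    congr 3
    push_cast
    ring
  unfold vT TT
  simp only [e0, prod_div_distrib, prod_mul_distrib]
  rw [p1, p2, p3, p4, Ph_succ v (a * b) (2 * r)]
  have n1 := Ph_ne v _ h2 r
  have n2 := Ph_ne v _ h2 (2 * r)
  have n3 := Ph_ne v _ h2 (r + (r + m) + 1)
  have n4 : Pf v (a * b) (2 * r) ≠ 0 := h2 _
  have n5 := Ph_ne v _ h3 r
  have n6 := qn_ne v _ h1 r hr
  have n7 := qn_ne v _ h1 m (by omega)
  have e5 : ∏ t ∈ range r, cb (a * v ^ (-1 - (t : ℤ))) = Ph v a r := rfl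
  have e6 : ∏ t ∈ range m, cb (v ^ (t + 1)) = qn v m := rfl
  rw [e5, e6]
  field_simp

/-- the certificate -/
noncomputable def GG (v a b : ℂ) (k m : ℕ) : ℂ :=
  -(v ^ ((m : ℤ) - (k + 1)) * cb (v ^ m) * Pf v (b * v) m * Pf v (a * b) (m + k + 1)) /
    (cb (v ^ (k + 1)) * Pf v b k * Pf v (a * b) (2 * m)) * TT v a b (k + 1) m

lemma Pf_shift (v x : ℂ) (hv : v ≠ 0) (n : ℕ) : Pf v (x * v) (n + 1) = Pf v x n := by
  unfold Pf
  congr 1
  rw [mul_assoc]
  congr 1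
  nth_rw 1 [← zpow_one v]
  rw [← zpow_add₀ hv]
  congr 1
  push_cast
  ring

lemma keyid (v a b M J : ℂ) (hv : v ≠ 0) (ha : a ≠ 0) (hb : b ≠ 0) (hM : M ≠ 0) (hJ : J ≠ 0) :
    cb (a * b / (v * M ^ 2)) * ((v / a) * cb (v * (M * J)) * cb (b / (v * (M * J))) -
      cb (a * b / (v ^ 2 * M ^ 2 * J)) * cb (v * J)) =
    -(b / (v * M ^ 2 * J)) * cb (a / (v * M)) * cb (a * b / (v * M)) * cb (v * J) +
      1 / (a * J) * cb M * cb (b / M) * cb (a * b / (v ^ 2 * M ^ 2 * J)) := by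
  simp only [cb]
  field_simp
  ring

lemma Pf_eq (v x : ℂ) (hv : v ≠ 0) (n : ℕ) : Pf v x n = cb (x / (v * v ^ n)) := by
  unfold Pf
  congr 1
  rw [zpow_sub₀ hv, zpow_neg_one, zpow_natCast]
  field_simp

lemma step (v a b : ℂ) (m j : ℕ) (hv : v ≠ 0) (ha : a ≠ 0) (hb : b ≠ 0)
    (h1 : ∀ i : ℕ, i < m + j + 1 → cb (v ^ (i + 1)) ≠ 0) (h2 : ∀ i : ℤ, cb (a * b * v ^ i) ≠ 0)
    (h3 : ∀ i : ℤ, cb (b * v ^ i) ≠ 0) :
    TT v a b (m + j + 1) m - TT v a b (m + j) m = GG v a b (m + j) (m + 1) - GG v a b (m + j) m := by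
  have hM : v ^ m ≠ 0 := pow_ne_zero _ hv
  have hJ : v ^ j ≠ 0 := pow_ne_zero _ hv
  have e1 : m + j - m = j := by omega
  have e2 : m + j + 1 - m = j + 1 := by omega
  have e3 : m + j + 1 - (m + 1) = j := by omega
  have n1 := Ph_ne v _ h2 m
  have n3 := Ph_ne v _ h2 (m + (m + j) + 1)
  have n4 : Pf v (a * b) (2 * m) ≠ 0 := h2 _
  have n4' : Pf v (a * b) (2 * (m + 1)) ≠ 0 := h2 _
  have n5 := Ph_ne v _ h3 m
  have n6 := qn_ne v _ h1 m (by omega)
  have n7 := qn_ne v _ h1 j (by omega)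
  have n8 : Pf v b m ≠ 0 := h3 _
  have n9 : Pf v b (m + j) ≠ 0 := h3 _
  have n10 : cb (v ^ (m + 1)) ≠ 0 := h1 m (by omega)
  have n11 : cb (v ^ (j + 1)) ≠ 0 := h1 j (by omega)
  have n12 : cb (v ^ (m + j + 1)) ≠ 0 := h1 (m + j) (by omega)
  have n13 : Pf v (a * b) (m + (m + j) + 1) ≠ 0 := h2 _
  have n14 : Pf v (a * b) (m + (m + j) + 1 + 1) ≠ 0 := h2 _
  obtain ⟨W, hW⟩ : ∃ W, W = v ^ (-(m : ℤ) ^ 2) * b ^ m * (v / a) ^ j *
    (Ph v a m * Ph v (a * b) m) * (qn v (m + j) * Ph v b (m + j)) /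
    (qn v m * qn v j * Ph v b m * Ph v (a * b) (m + (m + j) + 1)) := ⟨_, rfl⟩
  have t0 : TT v a b (m + j) m = W * Pf v (a * b) (2 * m) := by
    rw [hW]; unfold TT; rw [e1]; ring
  have t1 : TT v a b (m + j + 1) m = W * Pf v (a * b) (2 * m) * (v / a) * cb (v ^ (m + j + 1)) *
      Pf v b (m + j) / (cb (v ^ (j + 1)) * Pf v (a * b) (m + (m + j) + 1)) := by
    rw [hW]; unfold TT
    rw [e2, show m + (m + j + 1) + 1 = (m + (m + j) + 1) + 1 by ring, Ph_succ v (a * b),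
      qn_succ, qn_succ, Ph_succ v b, pow_succ (v / a)]
    field_simp
  have t2 : TT v a b (m + j + 1) (m + 1) = W * (b / (v * (v ^ m) ^ 2)) * Pf v a m *
      cb (v ^ (m + j + 1)) / cb (v ^ (m + 1)) * Pf v b (m + j) / Pf v b m *
      Pf v (a * b) (2 * (m + 1)) * Pf v (a * b) m /
        (Pf v (a * b) (m + (m + j) + 1) * Pf v (a * b) (m + (m + j) + 1 + 1)) := by
    rw [hW]; unfold TT
    have ez : v ^ (-((m + 1 : ℕ) : ℤ) ^ 2) = v ^ (-(m : ℤ) ^ 2) / (v * (v ^ m) ^ 2) := by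
      rw [eq_div_iff (mul_ne_zero hv (pow_ne_zero _ hM)), ← pow_mul, ← pow_succ', ← zpow_natCast,
        ← zpow_add₀ hv]
      congr 1
      push_cast
      ring
    rw [e3, show m + 1 + (m + j + 1) + 1 = (m + (m + j) + 1) + 1 + 1 by ring,
      Ph_succ v (a * b) (m + (m + j) + 1 + 1),
      Ph_succ v (a * b) (m + (m + j) + 1), Ph_succ v (a * b) m,
      qn_succ, qn_succ, Ph_succ v b, Ph_succ v b, Ph_succ v a, ez, pow_succ b]
    clear hW t0 t1 h1 h2 h3 e1 e2 e3 ez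
    generalize v ^ (-(m : ℤ) ^ 2) = z1 at *
    generalize (v / a) ^ j = z2 at *
    generalize Ph v a m = z3 at *
    generalize Ph v (a * b) m = z4 at *
    generalize qn v (m + j) = z5 at *
    generalize Ph v b (m + j) = z6 at *
    generalize qn v m = z7 at *
    generalize qn v j = z8 at *
    generalize Ph v b m = z9 at *
    generalize Ph v (a * b) (m + (m + j) + 1) = z10 at *
    generalize Pf v a m = z11 at *
    generalize Pf v (a * b) (2 * (m + 1)) = z12 at *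
    generalize cb (v ^ (m + j + 1)) = z13 at *
    generalize cb (v ^ (m + 1)) = z14 at *
    generalize Pf v b (m + j) = z15 at *
    generalize Pf v b m = z16 at *
    generalize Pf v (a * b) (m + (m + j) + 1 + 1) = z17 at *
    generalize Pf v (a * b) (m + (m + j) + 1) = z18 at *
    generalize Pf v (a * b) m = z19 at *
    generalize v ^ m = z20 at *
    field_simp
  have g0 : GG v a b (m + j) m = -(W * (1 / (a * v ^ j)) * cb (v ^ m) * Pf v (b * v) m /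
      cb (v ^ (j + 1))) := by
    unfold GG
    rw [t1, show m + (m + j) + 1 = m + (m + j) + 1 from rfl]
    have ez : v ^ ((m : ℤ) - (((m + j : ℕ) : ℤ) + 1)) = 1 / (v * v ^ j) := by
      rw [eq_div_iff (mul_ne_zero hv hJ), ← pow_succ', ← zpow_natCast, ← zpow_add₀ hv]
      have : (m : ℤ) - (((m + j : ℕ) : ℤ) + 1) + ((j + 1 : ℕ) : ℤ) = 0 := by push_cast; ring
      rw [this, zpow_zero]
    rw [ez]
    clear hW t0 t1 t2 h1 h2 h3 e1 e2 e3 ez
    generalize cb (v ^ (m + j + 1)) = z13 at *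
    generalize Pf v b (m + j) = z15 at *
    generalize Pf v (a * b) (m + (m + j) + 1) = z18 at *
    generalize Pf v (a * b) (2 * m) = z19 at *
    generalize cb (v ^ (j + 1)) = z14 at *
    generalize cb (v ^ m) = z1 at *
    generalize v ^ j = z20 at *
    field_simp
  have g1 : GG v a b (m + j) (m + 1) = -(W * (b / (v * (v ^ m) ^ 2 * v ^ j)) * Pf v a m *
      Pf v (a * b) m / Pf v (a * b) (m + (m + j) + 1)) := by
    unfold GG
    rw [t2, Pf_shift v b hv, show m + 1 + (m + j) + 1 = m + (m + j) + 1 + 1 by ring]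
    have ez : v ^ (((m + 1 : ℕ) : ℤ) - (((m + j : ℕ) : ℤ) + 1)) = 1 / v ^ j := by
      rw [eq_div_iff hJ, ← zpow_natCast, ← zpow_add₀ hv]
      have : ((m + 1 : ℕ) : ℤ) - (((m + j : ℕ) : ℤ) + 1) + (j : ℤ) = 0 := by push_cast; ring
      rw [this, zpow_zero]
    rw [ez]
    clear hW t0 t1 t2 g0 h1 h2 h3 e1 e2 e3 ez
    generalize cb (v ^ (m + j + 1)) = z13 at *
    generalize cb (v ^ (m + 1)) = z14 at *
    generalize Pf v b (m + j) = z15 at *
    generalize Pf v b m = z16 at *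
    generalize Pf v (a * b) (m + (m + j) + 1 + 1) = z17 at *
    generalize Pf v (a * b) (m + (m + j) + 1) = z18 at *
    generalize Pf v (a * b) m = z19 at *
    generalize Pf v (a * b) (2 * (m + 1)) = z12 at *
    generalize Pf v a m = z11 at *
    generalize v ^ m = z20 at *
    generalize v ^ j = z21 at *
    field_simp
  have key := keyid v a b (v ^ m) (v ^ j) hv ha hb hM hJ
  have c1 : Pf v (a * b) (2 * m) = cb (a * b / (v * (v ^ m) ^ 2)) := by
    rw [Pf_eq v _ hv, mul_comm 2 m, pow_mul]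
  have c2 : cb (v ^ (m + j + 1)) = cb (v * (v ^ m * v ^ j)) := by
    rw [pow_succ, pow_add, mul_comm]
  have c3 : Pf v b (m + j) = cb (b / (v * (v ^ m * v ^ j))) := by
    rw [Pf_eq v _ hv, pow_add]
  have c4 : Pf v (a * b) (m + (m + j) + 1) = cb (a * b / (v ^ 2 * (v ^ m) ^ 2 * v ^ j)) := by
    rw [Pf_eq v _ hv]
    congr 2
    rw [pow_succ, pow_add, pow_add]
    ring
  have c5 : cb (v ^ (j + 1)) = cb (v * v ^ j) := by rw [pow_succ']
  have c6 : Pf v a m = cb (a / (v * v ^ m)) := Pf_eq v _ hv _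
  have c7 : Pf v (a * b) m = cb (a * b / (v * v ^ m)) := Pf_eq v _ hv _
  have c8 : Pf v (b * v) m = cb (b / v ^ m) := by
    rw [Pf_eq v _ hv]
    congr 1
    field_simp
  rw [← c1, ← c2, ← c3, ← c4, ← c5, ← c6, ← c7, ← c8] at key
  rw [t0, t1, g0, g1]
  have : W * Pf v (a * b) (2 * m) * (v / a) * cb (v ^ (m + j + 1)) *
      Pf v b (m + j) / (cb (v ^ (j + 1)) * Pf v (a * b) (m + (m + j) + 1)) -
      W * Pf v (a * b) (2 * m) = W * (Pf v (a * b) (2 * m) * ((v / a) * cb (v ^ (m + j + 1)) *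
      Pf v b (m + j) - Pf v (a * b) (m + (m + j) + 1) * cb (v ^ (j + 1)))) /
      (cb (v ^ (j + 1)) * Pf v (a * b) (m + (m + j) + 1)) := by
    field_simp
  rw [this, key]
  generalize Pf v (a * b) (m + (m + j) + 1) = A1 at *
  generalize cb (v ^ (j + 1)) = A3 at *
  field_simp
  ring

lemma partial_sum (v a b : ℂ) (k : ℕ) (hv : v ≠ 0) (ha : a ≠ 0) (hb : b ≠ 0)
    (h1 : ∀ i : ℕ, i < k + 1 → cb (v ^ (i + 1)) ≠ 0) (h2 : ∀ i : ℤ, cb (a * b * v ^ i) ≠ 0)
    (h3 : ∀ i : ℤ, cb (b * v ^ i) ≠ 0) (m : ℕ) (hm : m ≤ k + 1) :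
    ∑ r ∈ range m, (TT v a b (k + 1) r - TT v a b k r) = GG v a b k m := by
  induction m with
  | zero => simp [GG, cb]
  | succ m ih =>
    rw [sum_range_succ, ih (by omega)]
    obtain ⟨j, rfl⟩ := Nat.exists_eq_add_of_le (show m ≤ k by omega)
    rw [step v a b m j hv ha hb h1 h2 h3]
    ring

lemma TT_sum (v a b : ℂ) (k : ℕ) (hv : v ≠ 0) (ha : a ≠ 0) (hb : b ≠ 0)
    (h1 : ∀ i : ℕ, i < k → cb (v ^ (i + 1)) ≠ 0) (h2 : ∀ i : ℤ, cb (a * b * v ^ i) ≠ 0)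
    (h3 : ∀ i : ℤ, cb (b * v ^ i) ≠ 0) : ∑ r ∈ range (k + 1), TT v a b k r = 1 := by
  induction k with
  | zero =>
    simp only [zero_add, sum_range_one]
    unfold TT
    have : Pf v (a * b) 0 ≠ 0 := h2 _
    simp [Ph, qn, this]
  | succ k ih =>
    have e := partial_sum v a b k hv ha hb h1 h2 h3 (k + 1) le_rfl
    rw [sum_sub_distrib, ih (fun i hi => h1 i (by omega))] at e
    have n1 : cb (v ^ (k + 1)) ≠ 0 := h1 k (by omega)
    have n2 : Pf v b k ≠ 0 := h3 _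
    have n3 : Pf v (a * b) (2 * (k + 1)) ≠ 0 := h2 _
    have g : GG v a b k (k + 1) = -TT v a b (k + 1) (k + 1) := by
      unfold GG
      rw [Pf_shift v b hv, show k + 1 + k + 1 = 2 * (k + 1) by ring]
      have : ((k + 1 : ℕ) : ℤ) - ((k : ℤ) + 1) = 0 := by push_cast; ring
      rw [this, zpow_zero]
      field_simp
    rw [sum_range_succ]
    rw [g] at e
    linear_combination e

theorem vwp : S_VWP := by
  intro v a b k hv ha hb h1 h2 h3
  rw [← TT_sum v a b k hv ha hb h1 h2 h3]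
  exact sum_congr rfl fun r hr => vT_eq v a b k r (by have := mem_range.1 hr; omega) h1 h2 h3

end Pool.Agent.Y678.CB
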